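import Pool.Agent.Squeeze.Main

/-!
# Additivity of the operational squeezing measure `G`

The definitions are in `Pool/Agent/Squeeze/Defs.lean`; the proof is in `Pool/Agent/Squeeze/`.

Idea: given a pure `Γ = Sᵀ S ≤ γ_A ⊕ γ_B` and `Z = 1 ⊕ (-1)`, the matrix geometric mean
`M = Γ # (Z Γ Z)` is again positive and symplectic, is block diagonal, satisfies
`M ≤ (Γ + Z Γ Z) / 2 ≤ γ_A ⊕ γ_B`, and by log-majorisation the sum of the logarithms of the largest
singular values does not increase when `Γ` is replaced by `M`.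
-/

namespace Pool.Agent.Results.MP_18219f_mp.Additivity

open Pool.Agent.Squeeze

/-- **Additivity of `G`.**  `G(γ_A ⊕ γ_B) = G(γ_A) + G(γ_B)` for all covariance matrices. -/
theorem result (n₁ n₂ : ℕ) (γA : Matrix (Idx n₁) (Idx n₁) ℝ) (γB : Matrix (Idx n₂) (Idx n₂) ℝ)
    (hA : IsCovariance γA) (hB : IsCovariance γB) :
    G (directSum γA γB) = G γA + G γB :=
  additivity n₁ n₂ γA γB hA hB

end Pool.Agent.Results.MP_18219f_mp.Additivity
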